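import Pool.Agent.H80R2.BC.Final2

/-!
# Base change and gaps for the Atiyah conjecture in classes of groups
-/

set_option autoImplicit false

open scoped ENNReal

namespace Pool.Agent.Results.MP_54e5d7_al.BaseChangeGap

open Classical in
/-- The von Neumann dimension of the kernel of right multiplication by the `m × n` matrix `A` over
the complex group ring of `G` on `ℓ²(G)^m` (as in the frozen statement): the sum over `i` of
`1 - dist(δ_(i,1), ker)²`. -/
noncomputable def kerDim (G : Type) [Group G] {m n : ℕ} (A : Matrix (Fin m) (Fin n) (G →₀ ℂ)) :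
    ℝ :=
  ∑ i : Fin m, (1 - (Metric.infDist
    (lp.single 2 (i, (1 : G)) (1 : ℂ) : lp (fun _ : Fin m × G => ℂ) 2)
    {x : lp (fun _ : Fin m × G => ℂ) 2 | ∀ (j : Fin n) (g : G),
      ∑ i' : Fin m, (A i' j).sum (fun h c => x (i', g * h⁻¹) * c) = 0}) ^ 2)

/-- The orders of the finite subgroups of `G` are bounded and `d` is their least common
multiple. -/
def IsLcm (G : Type) [Group G] (d : ℕ) : Prop :=
  (∃ N : ℕ, ∀ H : Subgroup G, Finite H → Nat.card H ≤ N) ∧
  (∀ H : Subgroup G, Finite H → Nat.card H ∣ d) ∧
  ∀ e : ℕ, (∀ H : Subgroup G, Finite H → Nat.card H ∣ e) → d ∣ e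

/-- **Theorem.** Let `C` be a class of groups closed under direct products of two groups and under
free products with free groups of finite rank (for example the torsionfree groups). All groups of
`C` with a bound on the orders of the finite subgroups satisfy the strong Atiyah conjecture with
complex coefficients if and only if some open interval `(s,t)` with `0 ≤ s < t` contains none of the
numbers `lcm(G) · dim ker A`, `G` a group of `C` with a bound on the orders of its finite subgroups
and `A` a matrix over the integral group ring of `G`. -/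
theorem result (C : (G : Type) → [Group G] → Prop)
    (hprod : ∀ (G H : Type) [Group G] [Group H], C G → C H → C (G × H))
    (hfree : ∀ (G : Type) [Group G] (m : ℕ), C G → C (Monoid.Coprod G (FreeGroup (Fin m)))) :
    (∀ (G : Type) [Group G], C G → ∀ d : ℕ, IsLcm G d →
      ∀ (m n : ℕ) (A : Matrix (Fin m) (Fin n) (G →₀ ℂ)), ∃ z : ℤ, (d : ℝ) * kerDim G A = z) ↔
    ∃ s t : ℝ, 0 ≤ s ∧ s < t ∧ ∀ (G : Type) [Group G], C G → ∀ d : ℕ, IsLcm G d →
      ∀ (m n : ℕ) (A : Matrix (Fin m) (Fin n) (G →₀ ℂ)), (∀ i j g, ∃ c : ℤ, A i j g = c) →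
        ¬ (s < (d : ℝ) * kerDim G A ∧ (d : ℝ) * kerDim G A < t) := by
  constructor
  · intro h
    refine ⟨0, 1, le_rfl, one_pos, fun G _ hC d hd m n A _ ⟨h1, h2⟩ => ?_⟩
    obtain ⟨z, hz⟩ := h G hC d hd m n A
    rw [hz] at h1 h2
    have h3 : (0 : ℤ) < z := by exact_mod_cast h1
    have h4 : z < (1 : ℤ) := by exact_mod_cast h2
    omega
  · rintro ⟨s, t, hs, hst, h⟩ G _ hC d hd m n A
    exact Pool.Agent.H80R2.BC.final_dich_class C hprod hfree s t hs hst h G hC d hd m n A

end Pool.Agent.Results.MP_54e5d7_al.BaseChangeGap
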