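import Pool.Agent.H71R2.Idem.MatKer

/-!
# The Atiyah conjecture for algebraic matrices with squarefree lowest coefficient
-/

set_option autoImplicit false

open scoped ENNReal

namespace Pool.Agent.Results.MP_54e5d7_al.SquarefreeAlgebraic

open Pool.Agent.H71R2.Idem Pool.Agent.H71R2.Idem.Mat Pool.Agent.H71R2.Idem.MatKer

universe u

variable {G : Type u} [Group G] {n : ℕ}

/-- The von Neumann dimension of the kernel of right multiplication by `A`, a square matrix over
`ℤ[G]`, on the Hilbert space of square summable vectors: the sum over `i` of the squared norms of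
the projections of the standard basis vectors `δ_{i,1}` onto the kernel, where the squared norm of
the projection is written as `1 - dist(δ_{i,1}, ker)^2`. -/
noncomputable def kerDim (A : Matrix (Fin n) (Fin n) (MonoidAlgebra ℤ G)) : ℝ :=
  open Classical in
  ∑ i : Fin n, (1 - (Metric.infDist
    (lp.single 2 (i, (1 : G)) (1 : ℂ) : lp (fun _ : Fin n × G => ℂ) 2)
    {x : lp (fun _ : Fin n × G => ℂ) 2 | ∀ (j : Fin n) (g : G),
      ∑ k : Fin n, (A k j).coeff.sum (fun h c => x (k, g * h⁻¹) * (c : ℂ)) = 0}) ^ 2)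

/-- Change of coefficients from the integers. -/
noncomputable def toC (G : Type u) [Group G] (n : ℕ) (R : Type) [CommRing R] :
    Matrix (Fin n) (Fin n) (MonoidAlgebra ℤ G) →+* Matrix (Fin n) (Fin n) (MonoidAlgebra R G) :=
  (MonoidAlgebra.mapRingHom G (Int.castRingHom R)).mapMatrix

theorem toC_coeff (R : Type) [CommRing R] (A : Matrix (Fin n) (Fin n) (MonoidAlgebra ℤ G))
    (i j : Fin n) (g : G) : (toC G n R A i j).coeff g = ((A i j).coeff g : R) := by
  unfold toC
  rw [RingHom.mapMatrix_apply, Matrix.map_apply, MonoidAlgebra.coeff_mapRingHom]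
  rfl

theorem T_toC (R : Type) [CommRing R] (A : Matrix (Fin n) (Fin n) (MonoidAlgebra ℤ G)) :
    T R G n (toC G n R A) = ((T ℤ G n A : ℤ) : R) := by
  rw [T_apply, T_apply, Int.cast_sum]
  exact Finset.sum_congr rfl fun i _ => toC_coeff R A i i 1

theorem prime_dvd (F : Matrix (Fin n) (Fin n) (MonoidAlgebra ℤ G)) (c : ℤ)
    (hF : F * F = c • F) (p : ℕ) (hp : p.Prime) (hpc : (p : ℤ) ∣ c)
    (hG : ∀ g : G, g ^ p = 1 → g = 1) : (p : ℤ) ∣ T ℤ G n F := by
  have : Fact p.Prime := ⟨hp⟩
  set x := toC G n (ZMod p) F with hx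
  have hc : ((c : ℤ) : ZMod p) = 0 := (ZMod.intCast_zmod_eq_zero_iff_dvd _ p).2 hpc
  have hxx : x * x = 0 := by
    rw [hx, ← map_mul, hF, map_zsmul]
    have : (c : ℤ) • toC G n (ZMod p) F = ((c : ℤ) : ZMod p) • toC G n (ZMod p) F := by
      rw [Int.cast_smul_eq_zsmul]
    rw [this, hc, zero_smul]
  have hxp : x ^ p = 0 := by
    obtain ⟨k, hk⟩ := Nat.exists_eq_add_of_le hp.two_le
    calc x ^ p = x ^ (2 + k) := congrArg (fun n => x ^ n) hk
      _ = 0 := by rw [pow_add, pow_two, hxx, zero_mul]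
  have h1 := T_pow p hG x
  rw [hxp, map_zero, hx, T_toC] at h1
  exact (ZMod.intCast_zmod_eq_zero_iff_dvd _ p).1 h1.symm

/-- An element of order `p` forces `p` to divide every common multiple of the orders of the
finite subgroups. -/
theorem dvd_of_torsion (d : ℕ) (hd : ∀ H : Subgroup G, Finite H → Nat.card H ∣ d) (p : ℕ)
    (hp : p.Prime) (h : ¬ ∀ g : G, g ^ p = 1 → g = 1) : p ∣ d := by
  push Not at h
  obtain ⟨g, hg, hg1⟩ := h
  have ho : orderOf g = p := by
    rcases (Nat.dvd_prime hp).1 (orderOf_dvd_of_pow_eq_one hg) with h1 | h1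
    · exact absurd (orderOf_eq_one_iff.1 h1) hg1
    · exact h1
  have hfin : Finite (Subgroup.zpowers g) := by
    rw [← Nat.card_pos_iff.trans (and_iff_right ⟨1⟩), Nat.card_zpowers, ho]
    exact hp.pos
  have := hd (Subgroup.zpowers g) hfin
  rwa [Nat.card_zpowers, ho] at this

theorem rad_dvd (F : Matrix (Fin n) (Fin n) (MonoidAlgebra ℤ G)) (c : ℤ)
    (hF : F * F = c • F) (d : ℕ) (hd : ∀ H : Subgroup G, Finite H → Nat.card H ∣ d) :
    ((∏ p ∈ c.natAbs.primeFactors, p : ℕ) : ℤ) ∣ (d : ℤ) * T ℤ G n F := by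
  push_cast
  apply Finset.prod_dvd_of_coprime
  · intro p hp q hq hpq
    have hp' := Nat.prime_of_mem_primeFactors (Finset.mem_coe.1 hp)
    have hq' := Nat.prime_of_mem_primeFactors (Finset.mem_coe.1 hq)
    exact (Nat.isCoprime_iff_coprime).2 ((Nat.coprime_primes hp' hq').2 hpq)
  · intro p hp
    have h1 := Nat.prime_of_mem_primeFactors hp
    have h2 := Nat.dvd_of_mem_primeFactors hp
    by_cases hG : ∀ g : G, g ^ p = 1 → g = 1
    · exact (prime_dvd F c hF p h1 (Int.natCast_dvd.2 h2) hG).mul_left _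
    · exact (Int.natCast_dvd_natCast.2 (dvd_of_torsion d hd p h1 hG)).mul_right _

/-- The main identity: the dimension of the kernel is the trace of `F / c`. -/
theorem kerDim_eq (A F B : Matrix (Fin n) (Fin n) (MonoidAlgebra ℤ G)) (c : ℤ) (hc : c ≠ 0)
    (hFA : F * A = 0) (hF : F = c • (1 : Matrix (Fin n) (Fin n) (MonoidAlgebra ℤ G)) + A * B) :
    (c : ℝ) * kerDim A = ((T ℤ G n F : ℤ) : ℝ) := by
  classical
  have hcC : (c : ℂ) ≠ 0 := by exact_mod_cast hc
  set A' := toC G n ℂ A with hA'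
  set F' := toC G n ℂ F with hF'
  set B' := toC G n ℂ B with hB'
  have h1 : F' * A' = 0 := by rw [hF', hA', ← map_mul, hFA, map_zero]
  have h2 : F' = (c : ℂ) • (1 : Matrix (Fin n) (Fin n) (MonoidAlgebra ℂ G)) + A' * B' := by
    rw [hF', hA', hB', ← map_mul, hF, map_add, map_zsmul, map_one, Int.cast_smul_eq_zsmul]
  set E := (c : ℂ)⁻¹ • F' with hE
  have hEA : ∀ x, R A' (R E x) = 0 := by
    intro x
    have : R (E * A') x = R A' (R E x) := by rw [MatKer.R_mul]; rfl
    rw [← this, hE, smul_mul_assoc, h1, smul_zero, map_zero]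
    rfl
  have hAE : ∀ x, R A' x = 0 → R E x = x := by
    intro x hx
    have e : E = 1 + A' * ((c : ℂ)⁻¹ • B') := by
      rw [hE, h2, smul_add, smul_smul, inv_mul_cancel₀ hcC, one_smul, mul_smul_comm]
    have h3 : R (A' * ((c : ℂ)⁻¹ • B')) x = R ((c : ℂ)⁻¹ • B') (R A' x) := by rw [MatKer.R_mul]; rfl
    rw [e, map_add]
    change R 1 x + R (A' * ((c : ℂ)⁻¹ • B')) x = x
    rw [h3, hx, map_zero, add_zero, MatKer.R_one]
    rfl
  have key := trace_eq A' E hEA hAE
  have hset : {x : lp (fun _ : Fin n × G => ℂ) 2 | ∀ (j : Fin n) (g : G),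
      ∑ k : Fin n, (A k j).coeff.sum (fun h c => x (k, g * h⁻¹) * (c : ℂ)) = 0}
      = (MatKer.K A' : Set (Kap.H (Fin n × G))) := by
    ext x
    rw [Set.mem_ofPred_eq, SetLike.mem_coe, mem_K]
    have hterm : ∀ (j : Fin n) (g : G), R A' x (j, g)
        = ∑ k : Fin n, (A k j).coeff.sum (fun h c => x (k, g * h⁻¹) * (c : ℂ)) := by
      intro j g
      rw [MatKer.R_apply]
      refine Finset.sum_congr rfl fun k _ => ?_
      rw [Finsupp.sum, Finsupp.sum]
      have hco : ∀ h, (A' k j).coeff h = ((A k j).coeff h : ℂ) := fun h => toC_coeff ℂ A k j h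
      refine Finset.sum_subset_zero_on_sdiff ?_ ?_ ?_
      · intro h hh
        rw [Finsupp.mem_support_iff] at hh ⊢
        intro h0
        exact hh (by rw [hco, h0, Int.cast_zero])
      · intro h hh
        have := (Finset.mem_sdiff.1 hh).2
        rw [Finsupp.notMem_support_iff] at this
        rw [← hco, this, mul_zero]
      · intro h _
        rw [hco]
    constructor
    · intro h
      ext q
      obtain ⟨j, g⟩ := q
      rw [hterm j g, h j g]
      rfl
    · intro h j g
      rw [← hterm j g, h]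
      rfl
  have hk : kerDim A = ∑ i, ‖(MatKer.K A').starProjection (dl i : Kap.H (Fin n × G))‖ ^ 2 := by
    unfold kerDim
    refine Finset.sum_congr rfl fun i _ => ?_
    rw [← one_sub_infDist, hset]
    congr!
  have hT : T ℂ G n E = (c : ℂ)⁻¹ * ((T ℤ G n F : ℤ) : ℂ) := by
    rw [← T_toC, ← hF', T_apply, T_apply, Finset.mul_sum]
    rfl
  rw [hT, ← hk] at key
  have : (c : ℂ) * ((kerDim A : ℝ) : ℂ) = ((T ℤ G n F : ℤ) : ℂ) := by
    rw [← key, ← mul_assoc, mul_inv_cancel₀ hcC, one_mul]
  exact_mod_cast this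

/-- Let `G` be a group and `d` a positive integer divisible by the orders of all finite subgroups of
`G`. Let `A` be a square matrix over `ℤ[G]` and `f` a polynomial with integer coefficients such
that `A f(A) = 0` and `c = f(0)` is not zero. Then `d (|c| / rad c) dim ker A` is an integer, where
`dim ker A` is the von Neumann dimension of the kernel of right multiplication by `A` and `rad c`
is the product of the primes dividing `c`. In particular, `d dim ker A` is an integer if `c` is
squarefree, as the Atiyah conjecture predicts. -/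
theorem result (A : Matrix (Fin n) (Fin n) (MonoidAlgebra ℤ G)) (f : Polynomial ℤ)
    (hA : A * Polynomial.aeval A f = 0) (hf : f.coeff 0 ≠ 0)
    (d : ℕ) (hd : ∀ H : Subgroup G, Finite H → Nat.card H ∣ d) :
    (∃ z : ℤ, (d : ℝ) * (((f.coeff 0).natAbs / ∏ p ∈ (f.coeff 0).natAbs.primeFactors, p : ℕ) : ℝ)
      * kerDim A = z) ∧
    (Squarefree (f.coeff 0).natAbs → ∃ z : ℤ, (d : ℝ) * kerDim A = z) := by
  set c := f.coeff 0 with hc
  set F := Polynomial.aeval A f with hF
  set B := Polynomial.aeval A f.divX with hB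
  have hfX : f = Polynomial.X * f.divX + Polynomial.C c := (Polynomial.X_mul_divX_add f).symm
  have hFB : F = c • (1 : Matrix (Fin n) (Fin n) (MonoidAlgebra ℤ G)) + A * B := by
    rw [hF, hB]
    conv_lhs => rw [hfX]
    rw [map_add, map_mul, Polynomial.aeval_X, Polynomial.aeval_C, add_comm,
      Algebra.algebraMap_eq_smul_one]
  have hcomm : F * A = A * F := by
    have h1 : Polynomial.aeval A (f * Polynomial.X) = F * A := by
      rw [map_mul, Polynomial.aeval_X]
    have h2 : Polynomial.aeval A (Polynomial.X * f) = A * F := by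
      rw [map_mul, Polynomial.aeval_X]
    rw [← h1, ← h2, mul_comm]
  have hFA : F * A = 0 := by rw [hcomm]; exact hA
  have hFF : F * F = c • F := by
    calc F * F = F * (c • (1 : Matrix (Fin n) (Fin n) (MonoidAlgebra ℤ G)) + A * B) :=
          congrArg (fun y => F * y) hFB
      _ = c • F := by
          rw [mul_add, ← mul_assoc, hFA, zero_mul, add_zero, mul_smul_comm, mul_one]
  obtain ⟨z, hz⟩ := rad_dvd F c hFF d hd
  have key := kerDim_eq A F B c hf hFA hFB
  set r : ℕ := ∏ p ∈ c.natAbs.primeFactors, p with hr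
  have hrc : r ∣ c.natAbs := Nat.prod_primeFactors_dvd _
  have hr0 : r ≠ 0 := fun h => by
    rw [h] at hrc
    exact hf (Int.natAbs_eq_zero.1 (Nat.eq_zero_of_zero_dvd hrc))
  have hrR : (r : ℝ) ≠ 0 := by exact_mod_cast hr0
  have habs : (c.natAbs : ℝ) = |(c : ℝ)| := by
    rw [Nat.cast_natAbs, Int.cast_abs]
  have hz' : (d : ℝ) * ((T ℤ G n F : ℤ) : ℝ) = (r : ℝ) * (z : ℝ) := by exact_mod_cast hz
  have key' : (c : ℝ) * ((d : ℝ) * kerDim A) = (r : ℝ) * (z : ℝ) := by
    rw [← hz', ← key]; ring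
  have first : ∃ z : ℤ, (d : ℝ) * ((c.natAbs / r : ℕ) : ℝ) * kerDim A = z := by
    rw [Nat.cast_div hrc hrR, habs]
    rcases abs_choice (c : ℝ) with h | h
    · refine ⟨z, ?_⟩
      rw [h]
      field_simp
      linarith
    · refine ⟨-z, ?_⟩
      rw [h]
      push_cast
      field_simp
      linarith
  refine ⟨first, fun hsq => ?_⟩
  have hrc' : r = c.natAbs := Nat.prod_primeFactors_of_squarefree hsq
  obtain ⟨w, hw⟩ := first
  rw [← hrc', Nat.div_self (Nat.pos_of_ne_zero hr0), Nat.cast_one, mul_one] at hw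
  exact ⟨w, hw⟩

end Pool.Agent.Results.MP_54e5d7_al.SquarefreeAlgebraic
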